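import Pool.Agent.Lib_helper40.ExoFinal

/-!
# A uniformly continuous involution of a ball without approximate fixed points

The Banach space is `C₀(ℂ, ℝ⁵)`: the continuous maps from the plane to five-dimensional Euclidean
space which vanish at infinity, with the supremum norm.
-/

set_option autoImplicit false

namespace Pool.Agent.Results.MP_2937c0_an.BallInvolution

open Set Filter Topology Metric Pool.Agent.Lib_helper40
open scoped ZeroAtInfty

/-- Five-dimensional Euclidean space. -/
abbrev R5 : Type := EuclideanSpace ℝ (Fin 5)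

/-- `X` is a Banach space, and its closed unit ball has a uniformly continuous involution `f`
which moves every point by at least a fixed positive distance. -/
structure IsCounterexample (X : Type) [NormedAddCommGroup X] [NormedSpace ℝ X] : Prop where
  complete : CompleteSpace X
  exists_involution : ∃ f : closedBall (0 : X) 1 → closedBall (0 : X) 1,
    UniformContinuous f ∧ (∀ x, f (f x) = x) ∧ ∃ δ > 0, ∀ x, δ ≤ ‖(f x : X) - x‖

/-! ### Maps on the plane and maps on the closed disc vanishing on the circle -/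

/-- The hyperplane of six-space. -/
theorem exists_iso : Nonempty (R5 ≃ₗᵢ[ℝ] (ℝ ∙ vv)ᗮ) := by
  have hne : vv ≠ 0 := by
    intro h
    have := vv_norm
    rw [h, norm_zero] at this
    exact zero_ne_one this
  have hfin : Module.finrank ℝ (ℝ ∙ vv)ᗮ = 5 := by
    have h6 : Fact (Module.finrank ℝ W6 = 5 + 1) := ⟨by simp⟩
    exact Submodule.finrank_orthogonal_span_singleton hne
  exact ⟨(((stdOrthonormalBasis ℝ (ℝ ∙ vv)ᗮ).reindex (finCongr hfin)).repr).symm⟩

open Classical in
/-- The map on the closed disc given by a map on the plane. -/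
noncomputable def ext5 (h : ℂ → R5) (t : DD) : R5 :=
  if ht : (t : ℂ) ∈ ball (0 : ℂ) 1 then h (Homeomorph.unitBall.symm ⟨t, ht⟩) else 0

theorem ext5_apply (h : ℂ → R5) (z : ℂ) :
    ext5 h ⟨(Homeomorph.unitBall z : ℂ), ball_subset_closedBall (Homeomorph.unitBall z).2⟩ =
      h z := by
  unfold ext5
  rw [dif_pos (Homeomorph.unitBall z).2]
  congr 1
  exact Homeomorph.symm_apply_apply _ z

theorem ext5_circle (h : ℂ → R5) (t : DD) (ht : ‖(t : ℂ)‖ = 1) : ext5 h t = 0 := by
  unfold ext5
  rw [dif_neg]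
  rw [mem_ball_zero_iff, ht]
  exact lt_irrefl _

theorem ext5_continuous (h : C₀(ℂ, R5)) : Continuous (ext5 h) := by
  rw [continuous_iff_continuousAt]
  intro t
  by_cases ht : (t : ℂ) ∈ ball (0 : ℂ) 1
  · -- an interior point
    have hopen : IsOpen {s : DD | (s : ℂ) ∈ ball (0 : ℂ) 1} :=
      isOpen_ball.preimage continuous_subtype_val
    have hon : ContinuousOn (ext5 h) {s : DD | (s : ℂ) ∈ ball (0 : ℂ) 1} := by
      rw [continuousOn_iff_continuous_domRestrict]
      have e : domRestrict {s : DD | (s : ℂ) ∈ ball (0 : ℂ) 1} (ext5 h) =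
          fun s => h (Homeomorph.unitBall.symm ⟨(s.1 : ℂ), s.2⟩) := by
        funext s
        have hs : (s.1 : ℂ) ∈ ball (0 : ℂ) 1 := s.2
        show ext5 h s.1 = _
        unfold ext5
        rw [dif_pos hs]
      rw [e]
      exact h.continuous.comp (Homeomorph.unitBall.symm.continuous.comp
        ((continuous_subtype_val.comp continuous_subtype_val).subtype_mk _))
    exact hon.continuousAt (hopen.mem_nhds ht)
  · -- a point of the circle
    have h0 : ext5 h t = 0 := by
      unfold ext5
      rw [dif_neg ht]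
    rw [ContinuousAt, h0, Metric.tendsto_nhds]
    intro ε hε
    -- the points where `h` is large form a compact set
    have hz : ∀ᶠ z in cocompact ℂ, dist (h z) 0 < ε :=
      (Metric.tendsto_nhds.1 h.zero_at_infty') ε hε
    obtain ⟨K, hK, hKsub⟩ := Filter.mem_cocompact.1 hz
    have hKc : IsCompact ((fun z : ℂ => (Homeomorph.unitBall z : ℂ)) '' K) :=
      hK.image (continuous_subtype_val.comp Homeomorph.unitBall.continuous)
    have hopen : IsOpen {s : DD | (s : ℂ) ∉ (fun z : ℂ => (Homeomorph.unitBall z : ℂ)) '' K} :=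
      hKc.isClosed.isOpen_compl.preimage continuous_subtype_val
    have hmem : t ∈ {s : DD | (s : ℂ) ∉ (fun z : ℂ => (Homeomorph.unitBall z : ℂ)) '' K} := by
      rintro ⟨z, _, hz2⟩
      apply ht
      rw [← hz2]
      exact (Homeomorph.unitBall z).2
    filter_upwards [hopen.mem_nhds hmem] with s hs
    unfold ext5
    split_ifs with hs1
    · have hn : Homeomorph.unitBall.symm ⟨(s : ℂ), hs1⟩ ∉ K := by
        intro hin
        apply hs
        refine ⟨_, hin, ?_⟩
        show ((Homeomorph.unitBall (Homeomorph.unitBall.symm ⟨(s : ℂ), hs1⟩) :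
          ball (0 : ℂ) 1) : ℂ) = s
        rw [Homeomorph.apply_symm_apply]
      exact hKsub hn
    · rw [dist_self]
      exact hε

/-- A continuous map on the closed disc which vanishes on the circle comes from a map on the
plane vanishing at infinity. -/
theorem exists_ext5 (g : DD → R5) (hg : Continuous g) (hg0 : ∀ t : DD, ‖(t : ℂ)‖ = 1 → g t = 0) :
    ∃ h : C₀(ℂ, R5), ext5 h = g := by
  set e : ℂ → DD := fun z =>
    ⟨(Homeomorph.unitBall z : ℂ), ball_subset_closedBall (Homeomorph.unitBall z).2⟩ with he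
  have hec : Continuous e := by
    rw [he]
    exact (continuous_subtype_val.comp Homeomorph.unitBall.continuous).subtype_mk _
  have hinf : Tendsto (fun z => g (e z)) (cocompact ℂ) (𝓝 0) := by
    rw [Metric.tendsto_nhds]
    intro ε hε
    rw [Filter.eventually_iff, Filter.mem_cocompact]
    set K : Set DD := {t | ε ≤ dist (g t) 0} with hK
    have hKc : IsCompact K := (isClosed_le continuous_const
      (hg.dist continuous_const)).isCompact
    have hKb : ∀ t ∈ K, (t : ℂ) ∈ ball (0 : ℂ) 1 := by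
      intro t ht
      rw [mem_ball_zero_iff]
      have h1 : ‖(t : ℂ)‖ ≤ 1 := mem_closedBall_zero_iff.1 t.2
      refine lt_of_le_of_ne h1 fun h2 => ?_
      have h3 : ε ≤ dist (g t) 0 := ht
      rw [hg0 t h2, dist_self] at h3
      exact absurd h3 (not_le.2 hε)
    -- the image of `K` in the plane
    have hcont : Continuous fun t : K => Homeomorph.unitBall.symm ⟨(t.1 : ℂ), hKb t.1 t.2⟩ :=
      Homeomorph.unitBall.symm.continuous.comp
        ((continuous_subtype_val.comp continuous_subtype_val).subtype_mk _)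
    have hcomp : CompactSpace K := isCompact_iff_compactSpace.1 hKc
    refine ⟨range fun t : K => Homeomorph.unitBall.symm ⟨(t.1 : ℂ), hKb t.1 t.2⟩,
      isCompact_range hcont, ?_⟩
    intro z hz
    by_contra hcon
    apply hz
    have h1 : e z ∈ K := by
      have : ¬ dist (g (e z)) 0 < ε := hcon
      exact not_lt.1 this
    refine ⟨⟨e z, h1⟩, ?_⟩
    show Homeomorph.unitBall.symm ⟨((e z : DD) : ℂ), _⟩ = z
    exact Homeomorph.symm_apply_apply _ z
  refine ⟨⟨⟨fun z => g (e z), hg.comp hec⟩, hinf⟩, ?_⟩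
  funext t
  unfold ext5
  split_ifs with ht
  · show g (e (Homeomorph.unitBall.symm ⟨(t : ℂ), ht⟩)) = g t
    congr 1
    apply Subtype.ext
    show ((Homeomorph.unitBall (Homeomorph.unitBall.symm ⟨(t : ℂ), ht⟩) : ball (0 : ℂ) 1) : ℂ) = t
    rw [Homeomorph.apply_symm_apply]
  · have h1 : ‖(t : ℂ)‖ ≤ 1 := mem_closedBall_zero_iff.1 t.2
    have h2 : ‖(t : ℂ)‖ = 1 := by
      refine le_antisymm h1 ?_
      rw [mem_ball_zero_iff] at ht
      exact not_lt.1 ht
    exact (hg0 t h2).symm

theorem norm_apply_le (h : C₀(ℂ, R5)) (z : ℂ) : ‖h z‖ ≤ ‖h‖ := by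
  rw [← ZeroAtInftyContinuousMap.norm_toBCF_eq_norm]
  exact h.toBCF.norm_coe_le_norm z

theorem norm_le_of (h : C₀(ℂ, R5)) (c : ℝ) (hc : 0 ≤ c) (hz : ∀ z, ‖h z‖ ≤ c) : ‖h‖ ≤ c := by
  rw [← ZeroAtInftyContinuousMap.norm_toBCF_eq_norm]
  exact (BoundedContinuousFunction.norm_le hc).2 hz

/-- The space `C₀(ℂ, ℝ⁵)` of the continuous maps from the plane to five-dimensional Euclidean
space which vanish at infinity, with the supremum norm, is a Banach space whose closed unit ball
has a uniformly continuous involution that moves every point by at least a fixed positive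
distance. -/
theorem result : IsCounterexample C₀(ℂ, R5) := by
  refine ⟨inferInstance, ?_⟩
  obtain ⟨ι⟩ := exists_iso
  have key : ∃ f : C₀(ℂ, R5) → C₀(ℂ, R5), MapsTo f (closedBall 0 1) (closedBall 0 1) ∧
      UniformContinuousOn f (closedBall 0 1) ∧
      (∀ x ∈ closedBall (0 : C₀(ℂ, R5)) 1, f (f x) = x) ∧
      ∃ δ' > 0, ∀ x ∈ closedBall (0 : C₀(ℂ, R5)) 1, δ' ≤ ‖f x - x‖ := by
    have hnormι : ∀ y : R5, ‖((ι y : (ℝ ∙ vv)ᗮ) : W6)‖ = ‖y‖ := fun y => ι.norm_map y
    apply exotic_abs (fun (h : C₀(ℂ, R5)) (t : DD) => ((ι (ext5 h t) : (ℝ ∙ vv)ᗮ) : W6))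
    · intro x y t
      have e : ext5 (x + y : C₀(ℂ, R5)) t = ext5 x t + ext5 y t := by
        unfold ext5
        split_ifs
        · rfl
        · rw [add_zero]
      show ((ι (ext5 (x + y : C₀(ℂ, R5)) t) : (ℝ ∙ vv)ᗮ) : W6) = _
      rw [e, map_add, Submodule.coe_add]
    · intro c x t
      have e : ext5 (c • x : C₀(ℂ, R5)) t = c • ext5 x t := by
        unfold ext5
        split_ifs
        · rfl
        · rw [smul_zero]
      show ((ι (ext5 (c • x : C₀(ℂ, R5)) t) : (ℝ ∙ vv)ᗮ) : W6) = _
      rw [e, map_smul, Submodule.coe_smul]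
    · intro x t
      show ‖((ι (ext5 x t) : (ℝ ∙ vv)ᗮ) : W6)‖ ≤ ‖x‖
      rw [hnormι]
      unfold ext5
      split_ifs
      · exact norm_apply_le x _
      · rw [norm_zero]; exact norm_nonneg x
    · intro x c hc hx
      refine norm_le_of x c hc fun z => ?_
      have h1 := hx ⟨(Homeomorph.unitBall z : ℂ),
        ball_subset_closedBall (Homeomorph.unitBall z).2⟩
      have h2 : ‖((ι (ext5 x ⟨(Homeomorph.unitBall z : ℂ),
        ball_subset_closedBall (Homeomorph.unitBall z).2⟩) : (ℝ ∙ vv)ᗮ) : W6)‖ ≤ c := h1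
      rwa [hnormι, ext5_apply] at h2
    · intro x
      exact continuous_subtype_val.comp (ι.continuous.comp (ext5_continuous x))
    · intro x t
      have h1 := (ι (ext5 x t)).2
      rw [Submodule.mem_orthogonal_singleton_iff_inner_left] at h1
      exact h1
    · intro x t ht
      show ((ι (ext5 x t) : (ℝ ∙ vv)ᗮ) : W6) = 0
      rw [ext5_circle _ _ ht, map_zero, Submodule.coe_zero]
    · intro g hg hg1 hg2
      have hmem : ∀ t, g t ∈ (ℝ ∙ vv)ᗮ := fun t => by
        rw [Submodule.mem_orthogonal_singleton_iff_inner_left]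
        exact hg1 t
      have hcont : Continuous fun t : DD => ι.symm ⟨g t, hmem t⟩ :=
        ι.symm.continuous.comp (hg.subtype_mk hmem)
      obtain ⟨h, hh⟩ := exists_ext5 (fun t => ι.symm ⟨g t, hmem t⟩) hcont (by
        intro t ht
        have : (⟨g t, hmem t⟩ : (ℝ ∙ vv)ᗮ) = 0 := Subtype.ext (hg2 t ht)
        show ι.symm ⟨g t, hmem t⟩ = 0
        rw [this, map_zero])
      refine ⟨h, ?_⟩
      funext t
      show ((ι (ext5 h t) : (ℝ ∙ vv)ᗮ) : W6) = g t
      rw [hh]
      show ((ι (ι.symm ⟨g t, hmem t⟩) : (ℝ ∙ vv)ᗮ) : W6) = g t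
      rw [LinearIsometryEquiv.apply_symm_apply]
  obtain ⟨f, hm, huc, hinv, δ, hδ, hd⟩ := key
  refine ⟨fun x => ⟨f x.1, hm x.2⟩, ?_, ?_, δ, hδ, ?_⟩
  · rw [uniformContinuousOn_iff_restrict] at huc
    exact huc.subtype_mk _
  · intro x
    exact Subtype.ext (hinv x.1 x.2)
  · intro x
    exact hd x.1 x.2

end Pool.Agent.Results.MP_2937c0_an.BallInvolution
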